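import Pool.Agent.Lib.MP_6bc78b_nt.GP.Iface
import Pool.Agent.Lib.MP_6bc78b_nt.WeylBound

/-! Project GP, module ZMS (helper64): second moment of `ζ` on vertical lines. -/

set_option autoImplicit false

open Complex Filter Topology MeasureTheory Finset

namespace Pool.Agent.Lib.MP_6bc78b_nt.GP.H64

/-- `n ^ (-σ)` -/
noncomputable def aw (σ : ℝ) (n : ℕ) : ℝ := (n : ℝ) ^ (-σ)

lemma aw_nonneg (σ : ℝ) (n : ℕ) : 0 ≤ aw σ n := Real.rpow_nonneg (Nat.cast_nonneg n) _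

lemma cpow_eq {n : ℕ} (hn : 1 ≤ n) (σ t : ℝ) :
    (n : ℂ) ^ (-((σ : ℂ) + t * I)) = (aw σ n : ℂ) * ei (ph t n) := by
  have hn0 : (0:ℝ) < n := by exact_mod_cast hn
  have hnC : (n : ℂ) ≠ 0 := by exact_mod_cast hn0.ne'
  rw [aw, ei, ph, Real.rpow_def_of_pos hn0, Complex.cpow_def_of_ne_zero hnC, Complex.ofReal_exp,
    ← Complex.exp_add, ← Complex.natCast_log]
  congr 1
  push_cast
  ring

lemma two_rpow_ge {σ : ℝ} (h2 : σ ≤ 3 / 4) : (7:ℝ) / 6 ≤ (2:ℝ) ^ (1 - σ) := by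
  have h : (7:ℝ) / 6 ≤ (2:ℝ) ^ (1 / 4 : ℝ) := by
    have e : (7:ℝ) / 6 = (((7:ℝ) / 6) ^ (4:ℝ)) ^ (1 / 4 : ℝ) := by
      rw [← Real.rpow_mul (by norm_num)]; norm_num
    rw [e]
    apply Real.rpow_le_rpow (by positivity) _ (by norm_num)
    norm_num
  exact h.trans (Real.rpow_le_rpow_of_exponent_le (by norm_num) (by linarith))

/-- the part `M ≤ n < 2 ^ k M` of the Dirichlet series, `t ≤ M`. -/
lemma block_sum {σ t : ℝ} (h1 : 1 / 2 ≤ σ) (h2 : σ ≤ 3 / 4) (ht : 0 < t) {M : ℕ} (hM : t ≤ M)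
    (k : ℕ) : ‖∑ n ∈ Ico M (2 ^ k * M), (aw σ n : ℂ) * ei (ph t n)‖ ≤
      24 * Real.pi / t * ((2 ^ k * M : ℕ) : ℝ) ^ (1 - σ) := by
  induction k with
  | zero =>
    simp only [pow_zero, one_mul, Ico_self, sum_empty, norm_zero]
    positivity
  | succ k ih =>
    have hk1 : 1 ≤ 2 ^ k := Nat.one_le_two_pow
    have hMk : M ≤ 2 ^ k * M := Nat.le_mul_of_pos_left M hk1
    have e2 : 2 ^ (k + 1) * M = 2 * (2 ^ k * M) := by rw [pow_succ]; ring
    rw [e2]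
    generalize hN : 2 ^ k * M = N at *
    have hN0 : (0:ℝ) < N := lt_of_lt_of_le ht (hM.trans (by exact_mod_cast hMk))
    rw [← Finset.sum_Ico_consecutive _ hMk (by omega : N ≤ 2 * N)]
    refine (norm_add_le _ _).trans ?_
    have hab := abel_le (fun n => ei (ph t n)) (aw σ) N (2 * N) (4 * Real.pi * N / t) (by omega)
      (fun n hn => by
        have hn0 : (0:ℝ) < n := lt_of_lt_of_le hN0 (by exact_mod_cast hn)
        unfold aw
        apply Real.rpow_le_rpow_of_nonpos hn0 _ (by linarith)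
        push_cast; linarith)
      (aw_nonneg _ _)
      (fun j hj1 hj2 => by
        refine (block_a ht (M := N) (b := j) (hM.trans (by exact_mod_cast hMk)) hj2).trans le_rfl)
    have e3 : 4 * Real.pi * N / t * aw σ N = 4 * Real.pi / t * (N : ℝ) ^ (1 - σ) := by
      have : (N : ℝ) ^ (1 - σ) = N * (N : ℝ) ^ (-σ) := by
        rw [show (1 - σ) = 1 + -σ by ring, Real.rpow_add hN0, Real.rpow_one]
      rw [aw, this]; ring
    rw [e3] at hab
    have e4 : ((2 * N : ℕ) : ℝ) ^ (1 - σ) = (2:ℝ) ^ (1 - σ) * (N : ℝ) ^ (1 - σ) := by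
      push_cast
      rw [Real.mul_rpow (by norm_num) hN0.le]
    rw [e4]
    have h3 := two_rpow_ge h2
    have hX : 0 ≤ (N : ℝ) ^ (1 - σ) := by positivity
    have hY : 0 ≤ Real.pi / t * (N : ℝ) ^ (1 - σ) := by positivity
    calc _ ≤ 24 * Real.pi / t * (N : ℝ) ^ (1 - σ) + 4 * Real.pi / t * (N : ℝ) ^ (1 - σ) :=
          add_le_add ih hab
      _ = 24 * (7 / 6) * (Real.pi / t * (N : ℝ) ^ (1 - σ)) := by ring
      _ ≤ 24 * (2:ℝ) ^ (1 - σ) * (Real.pi / t * (N : ℝ) ^ (1 - σ)) := by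
          apply mul_le_mul_of_nonneg_right _ hY
          linarith
      _ = _ := by ring

/-- the Dirichlet polynomial of length `2 ^ m`. -/
noncomputable def PP (σ : ℝ) (m : ℕ) (t : ℝ) : ℂ :=
  ∑ n ∈ Ico 1 (2 ^ m), (aw σ n : ℂ) * ei (ph t n)

/-- approximation of `ζ` by the polynomial of length `2 ^ m`, `2 ^ m / 2 ≤ t ≤ 2 ^ m`. -/
lemma approx {σ t : ℝ} (h1 : 1 / 2 ≤ σ) (h2 : σ ≤ 3 / 4) {m : ℕ} (ht1 : (2:ℝ) ^ m ≤ 2 * t)
    (ht2 : t ≤ 2 ^ m) :
    ‖riemannZeta ((σ : ℂ) + t * I)‖ ≤ ‖PP σ m t‖ + 160 := by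
  have hM0 : (0:ℝ) < 2 ^ m := by positivity
  have hM1 : (1:ℝ) ≤ 2 ^ m := one_le_pow₀ (by norm_num)
  have ht : 0 < t := by linarith
  set s : ℂ := (σ : ℂ) + t * I with hs
  have hsre : s.re = σ := by simp [hs]
  have hsim : s.im = t := by simp [hs]
  have hs1 : s ≠ 1 := by
    intro h
    rw [h] at hsim
    simp at hsim
    linarith
  set N : ℕ := 2 ^ m * 2 ^ m with hN
  have hN1 : 1 ≤ N := by
    have : 1 ≤ 2 ^ m := Nat.one_le_two_pow
    rw [hN]; nlinarith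
  have hNr : (N : ℝ) = 2 ^ m * 2 ^ m := by rw [hN]; push_cast; ring
  have hNpos : (0:ℝ) < N := by rw [hNr]; positivity
  have hsq : Real.sqrt N = 2 ^ m := by rw [hNr, Real.sqrt_mul_self hM0.le]
  have hNs : (N : ℝ) ^ (1 - σ) ≤ 2 ^ m := by
    calc (N : ℝ) ^ (1 - σ) ≤ (N : ℝ) ^ (1 / 2 : ℝ) :=
          Real.rpow_le_rpow_of_exponent_le (by exact_mod_cast hN1) (by linarith)
      _ = 2 ^ m := by rw [← Real.sqrt_eq_rpow, hsq]
  have hsn : ‖s‖ ≤ 2 * 2 ^ m := by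
    refine (norm_le_abs_re_add_abs_im s).trans ?_
    rw [hsre, hsim, abs_of_pos ht, abs_of_pos (by linarith)]; linarith
  have hs1n : t ≤ ‖s - 1‖ := by
    have := abs_im_le_norm (s - 1)
    rw [sub_im, one_im, sub_zero, hsim, abs_of_pos ht] at this
    exact this
  have key := riemannZeta₁_eq_sum (s := s) (by rw [hsre]; linarith) hN1
  rw [riemannZeta₁_eq hs1] at key
  have e1 : ∑ n ∈ Finset.Ico 1 N, (n : ℂ) ^ (-s) =
      ∑ n ∈ Finset.Ico 1 N, (aw σ n : ℂ) * ei (ph t n) := by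
    refine Finset.sum_congr rfl fun n hn => ?_
    exact cpow_eq (Finset.mem_Ico.1 hn).1 σ t
  rw [e1] at key
  have hS : ‖∑ n ∈ Finset.Ico 1 N, (aw σ n : ℂ) * ei (ph t n)‖ ≤ ‖PP σ m t‖ + 48 * Real.pi := by
    have hc : 1 ≤ 2 ^ m := Nat.one_le_two_pow
    have hc2 : 2 ^ m ≤ N := by rw [hN]; exact Nat.le_mul_of_pos_left _ hc
    rw [← Finset.sum_Ico_consecutive _ hc hc2]
    refine (norm_add_le _ _).trans ?_
    have hb := block_sum h1 h2 ht (M := 2 ^ m) (by push_cast; exact ht2) m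
    rw [← hN] at hb
    have : 24 * Real.pi / t * (N : ℝ) ^ (1 - σ) ≤ 48 * Real.pi := by
      calc 24 * Real.pi / t * (N : ℝ) ^ (1 - σ) ≤ 24 * Real.pi / t * (2 * t) := by
            apply mul_le_mul_of_nonneg_left (hNs.trans ht1) (by positivity)
        _ = 48 * Real.pi := by field_simp; ring
    exact add_le_add le_rfl (hb.trans this)
  have h3 : ‖∑' k : ℕ, bt (N + k) s‖ ≤ ‖s‖ * ‖s - 1‖ * (3 / 2 ^ m) := by
    have hb : ∀ k : ℕ, ‖bt (N + k) s‖ ≤ ‖s‖ * ‖s - 1‖ * ((N + k : ℕ) : ℝ) ^ (-(1 / 2 : ℝ) - 1) := by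
      intro k
      have := norm_bt_le (n := N + k) (by omega) (s := s) (by rw [hsre]; linarith)
      refine this.trans ?_
      apply mul_le_mul_of_nonneg_left _ (by positivity)
      apply Real.rpow_le_rpow_of_exponent_le
      · have : 1 ≤ N + k := by omega
        exact_mod_cast this
      · rw [hsre]; linarith
    have hsum := (summable_bt_bound N (σ := 1 / 2) (by norm_num)).mul_left (‖s‖ * ‖s - 1‖)
    have hsum' : Summable fun k : ℕ => ‖bt (N + k) s‖ :=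
      hsum.of_nonneg_of_le (fun k => norm_nonneg _) hb
    calc ‖∑' k : ℕ, bt (N + k) s‖ ≤ ∑' k : ℕ, ‖bt (N + k) s‖ := norm_tsum_le_tsum_norm hsum'
      _ ≤ ∑' k : ℕ, ‖s‖ * ‖s - 1‖ * ((N + k : ℕ) : ℝ) ^ (-(1 / 2 : ℝ) - 1) :=
          hsum'.tsum_le_tsum hb hsum
      _ = ‖s‖ * ‖s - 1‖ * ∑' k : ℕ, ((N + k : ℕ) : ℝ) ^ (-(1 / 2 : ℝ) - 1) := tsum_mul_left
      _ ≤ ‖s‖ * ‖s - 1‖ * (3 / Real.sqrt N) := by
          have := tail_le hN1
          gcongr
      _ = _ := by rw [hsq]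
  have h4 : ‖(N : ℂ) ^ (1 - s)‖ ≤ 2 ^ m := by
    have := norm_cpow_eq_rpow_re_of_pos hNpos (1 - s)
    rw [Complex.ofReal_natCast] at this
    rw [this]
    have e : (1 - s).re = 1 - σ := by simp [hsre]
    rw [e]; exact hNs
  have hpos : 0 < ‖s - 1‖ := lt_of_lt_of_le ht hs1n
  have h5 : ‖s - 1‖ * ‖riemannZeta s‖ ≤ ‖s - 1‖ * (‖PP σ m t‖ + 160) := by
    rw [← norm_mul, key]
    refine (norm_add_le _ _).trans ?_
    refine (add_le_add (norm_add_le _ _) le_rfl).trans ?_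
    rw [norm_mul]
    have i1 : ‖s - 1‖ * ‖∑ n ∈ Finset.Ico 1 N, (aw σ n : ℂ) * ei (ph t n)‖ ≤
        ‖s - 1‖ * (‖PP σ m t‖ + 48 * Real.pi) := mul_le_mul_of_nonneg_left hS hpos.le
    have i2 : ‖(N : ℂ) ^ (1 - s)‖ ≤ ‖s - 1‖ * 2 := h4.trans (by linarith)
    have i3 : ‖s‖ * ‖s - 1‖ * (3 / 2 ^ m) ≤ ‖s - 1‖ * 6 := by
      calc ‖s‖ * ‖s - 1‖ * (3 / 2 ^ m) ≤ (2 * 2 ^ m) * ‖s - 1‖ * (3 / 2 ^ m) := by gcongr
        _ = ‖s - 1‖ * 6 := by field_simp; ring
    have i4 : ‖s - 1‖ * (48 * Real.pi) ≤ ‖s - 1‖ * 152 := by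
      apply mul_le_mul_of_nonneg_left _ hpos.le
      have := Real.pi_lt_d2
      linarith
    linarith [h3]
  exact le_of_mul_le_mul_left h5 hpos


/-! ## mean value of the polynomial -/

/-- the Gaussian of width `2 ^ m`. -/
noncomputable def gm (m : ℕ) (t : ℝ) : ℝ := Real.exp (-(t / 2 ^ m) ^ 2)

lemma pair_eq (m : ℕ) (n k : ℕ) (t : ℝ) :
    ei (ph t n) * (starRingEnd ℂ) (ei (ph t k)) * ((gm m t : ℝ) : ℂ) =
      Complex.exp ((-(1 / (2 ^ m) ^ 2) : ℂ) * (t : ℂ) ^ 2 +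
        (-(((Real.log n - Real.log k : ℝ) : ℂ) * I)) * t + 0) := by
  have h : (starRingEnd ℂ) (ei (ph t k)) = ei (-(ph t k)) := conj_ei _
  rw [h, ei, ei, gm, Complex.ofReal_exp, ← Complex.exp_add, ← Complex.exp_add]
  congr 1
  simp only [ph]
  push_cast
  ring

lemma b_re (m : ℕ) : ((-(1 / (2 ^ m) ^ 2) : ℂ)).re < 0 := by
  have h : ((-(1 / (2 ^ m) ^ 2) : ℂ)) = ((-(1 / (2 ^ m) ^ 2) : ℝ) : ℂ) := by push_cast; ring
  rw [h, Complex.ofReal_re]
  have : (0:ℝ) < 1 / (2 ^ m) ^ 2 := by positivity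
  linarith

lemma pair_int (m : ℕ) (n k : ℕ) :
    Integrable fun t : ℝ => ei (ph t n) * (starRingEnd ℂ) (ei (ph t k)) * ((gm m t : ℝ) : ℂ) := by
  simp_rw [pair_eq]
  exact integrable_cexp_quadratic' (b_re m) _ _

lemma pair_integral (m : ℕ) (n k : ℕ) :
    ‖∫ t : ℝ, ei (ph t n) * (starRingEnd ℂ) (ei (ph t k)) * ((gm m t : ℝ) : ℂ)‖ ≤
      2 * 2 ^ m * Real.exp (-((2 ^ m * (Real.log n - Real.log k)) ^ 2 / 4)) := by
  simp_rw [pair_eq]
  rw [integral_cexp_quadratic (b_re m)]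
  have hM : (0:ℝ) < 2 ^ m := by positivity
  have e1 : ((Real.pi : ℂ) / -(-(1 / (2 ^ m) ^ 2) : ℂ)) = ((Real.pi * (2 ^ m) ^ 2 : ℝ) : ℂ) := by
    push_cast; field_simp
  have e2 : (0 : ℂ) - (-(((Real.log n - Real.log k : ℝ) : ℂ) * I)) ^ 2 /
      (4 * (-(1 / (2 ^ m) ^ 2) : ℂ)) =
      ((-((2 ^ m * (Real.log n - Real.log k)) ^ 2 / 4) : ℝ) : ℂ) := by
    have : (2:ℂ) ^ m ≠ 0 := pow_ne_zero _ two_ne_zero
    rw [neg_sq, mul_pow, I_sq]
    push_cast
    field_simp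
    ring
  rw [e1, e2, norm_mul, ← Complex.ofReal_exp, Complex.norm_real, Real.norm_of_nonneg (Real.exp_pos _).le]
  apply mul_le_mul_of_nonneg_right _ (Real.exp_pos _).le
  rw [norm_cpow_eq_rpow_re_of_pos (by positivity)]
  have e3 : ((1 / 2 : ℂ)).re = 1 / 2 := by norm_num
  rw [e3, ← Real.sqrt_eq_rpow, Real.sqrt_mul Real.pi_pos.le, Real.sqrt_sq hM.le]
  apply mul_le_mul_of_nonneg_right _ hM.le
  rw [Real.sqrt_le_iff]
  exact ⟨by norm_num, by linarith [Real.pi_lt_d2]⟩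

/-- the off-diagonal decay. -/
noncomputable def rr (n k : ℕ) : ℝ := Real.exp (-(|(n:ℝ) - k| / 4))

lemma rr_symm (n k : ℕ) : rr n k = rr k n := by
  unfold rr; rw [abs_sub_comm]

lemma log_dist {m n k : ℕ} (hn : n ∈ Ico 1 (2 ^ m)) (hk : k ∈ Ico 1 (2 ^ m)) (h : k ≤ n) :
    (n:ℝ) - k ≤ 2 ^ m * (Real.log n - Real.log k) := by
  rw [mem_Ico] at hn hk
  have hn0 : (0:ℝ) < n := by exact_mod_cast hn.1
  have hk0 : (0:ℝ) < k := by exact_mod_cast hk.1
  have hM : (n:ℝ) ≤ 2 ^ m := by exact_mod_cast hn.2.le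
  have hkn : (k:ℝ) ≤ n := by exact_mod_cast h
  have h1 : 1 - (k:ℝ) / n ≤ Real.log n - Real.log k := by
    have := Real.log_le_sub_one_of_pos (x := (k:ℝ) / n) (by positivity)
    rw [Real.log_div hk0.ne' hn0.ne'] at this
    linarith
  have h2 : (n:ℝ) * (1 - (k:ℝ) / n) = n - k := by field_simp
  have h3 : 0 ≤ 1 - (k:ℝ) / n := by
    rw [sub_nonneg, div_le_one hn0]; exact hkn
  calc (n:ℝ) - k = n * (1 - (k:ℝ) / n) := h2.symm
    _ ≤ 2 ^ m * (1 - (k:ℝ) / n) := mul_le_mul_of_nonneg_right hM h3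
    _ ≤ _ := mul_le_mul_of_nonneg_left h1 (by positivity)

lemma exp_le_rr {m n k : ℕ} (hn : n ∈ Ico 1 (2 ^ m)) (hk : k ∈ Ico 1 (2 ^ m)) :
    Real.exp (-((2 ^ m * (Real.log n - Real.log k)) ^ 2 / 4)) ≤ rr n k := by
  have main : |(n:ℝ) - k| ≤ |2 ^ m * (Real.log n - Real.log k)| := by
    rcases le_total k n with h | h
    · have h1 := log_dist hn hk h
      have h2 : (0:ℝ) ≤ (n:ℝ) - k := by
        have : (k:ℝ) ≤ n := by exact_mod_cast h
        linarith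
      rw [abs_of_nonneg h2]
      exact h1.trans (le_abs_self _)
    · have h1 := log_dist hk hn h
      have h2 : (n:ℝ) - k ≤ 0 := by
        have : (n:ℝ) ≤ k := by exact_mod_cast h
        linarith
      rw [abs_of_nonpos h2]
      have h3 : -((2:ℝ) ^ m * (Real.log n - Real.log k)) = 2 ^ m * (Real.log k - Real.log n) := by
        ring
      have h4 := neg_le_abs ((2:ℝ) ^ m * (Real.log n - Real.log k))
      rw [h3] at h4
      linarith
  have hd : |(n:ℝ) - k| ≤ |(n:ℝ) - k| ^ 2 := by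
    have hz : |(n:ℝ) - k| = ((|(n:ℤ) - k| : ℤ) : ℝ) := by push_cast; rfl
    rw [hz]
    have h0 : (0:ℤ) ≤ |(n:ℤ) - k| := abs_nonneg _
    rcases h0.eq_or_lt with h | h
    · rw [← h]; simp
    · have : (1:ℤ) ≤ |(n:ℤ) - k| := h
      have h5 : |(n:ℤ) - k| ≤ |(n:ℤ) - k| ^ 2 := by nlinarith
      exact_mod_cast h5
  unfold rr
  apply Real.exp_le_exp.mpr
  have h6 : |(n:ℝ) - k| ^ 2 ≤ |2 ^ m * (Real.log n - Real.log k)| ^ 2 :=
    pow_le_pow_left₀ (abs_nonneg _) main 2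
  rw [sq_abs ((2:ℝ) ^ m * (Real.log n - Real.log k))] at h6
  linarith

lemma geom_le (K : ℕ) : ∑ j ∈ range K, (Real.exp (-(1 / 4))) ^ j ≤ 5 := by
  have h1 : Real.exp (-(1 / 4)) ≤ 4 / 5 := by
    rw [Real.exp_neg]
    have := Real.add_one_le_exp (1 / 4 : ℝ)
    rw [inv_le_comm₀ (Real.exp_pos _) (by norm_num)]
    linarith
  have h0 := Real.exp_pos (-(1 / 4) : ℝ)
  have h2 := geom_sum_eq (x := Real.exp (-(1 / 4))) (by linarith) K
  rw [h2]
  have h3 : 0 ≤ Real.exp (-(1 / 4)) ^ K := by positivity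
  rw [div_le_iff_of_neg (by linarith)]
  linarith

lemma sum_rr_le (m n : ℕ) : ∑ k ∈ Ico 1 (2 ^ m), rr n k ≤ 10 := by
  set r := Real.exp (-(1 / 4)) with hr
  have hr0 : 0 < r := Real.exp_pos _
  have key : ∀ k ∈ Ico 1 (2 ^ m), rr n k ≤ (if k ≤ n then r ^ (n - k) else 0) +
      (if n ≤ k then r ^ (k - n) else 0) := by
    intro k _
    rcases le_total k n with h | h
    · rw [if_pos h]
      have e : rr n k = r ^ (n - k) := by
        rw [hr, ← Real.exp_nat_mul, rr, Nat.cast_sub h]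
        have : (0:ℝ) ≤ (n:ℝ) - k := by
          have : (k:ℝ) ≤ n := by exact_mod_cast h
          linarith
        rw [abs_of_nonneg this]; congr 1; ring
      rw [e]
      have : 0 ≤ (if n ≤ k then r ^ (k - n) else 0) := by split_ifs <;> positivity
      linarith
    · rw [if_pos h]
      have e : rr n k = r ^ (k - n) := by
        rw [hr, ← Real.exp_nat_mul, rr, Nat.cast_sub h]
        have : (n:ℝ) - k ≤ 0 := by
          have : (n:ℝ) ≤ k := by exact_mod_cast h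
          linarith
        rw [abs_of_nonpos this]; congr 1; ring
      rw [e]
      have : 0 ≤ (if k ≤ n then r ^ (n - k) else 0) := by split_ifs <;> positivity
      linarith
  refine (Finset.sum_le_sum key).trans ?_
  rw [Finset.sum_add_distrib]
  have s1 : ∑ k ∈ Ico 1 (2 ^ m), (if k ≤ n then r ^ (n - k) else 0) ≤ 5 := by
    rw [← Finset.sum_filter]
    calc ∑ k ∈ (Ico 1 (2 ^ m)).filter (fun k => k ≤ n), r ^ (n - k)
        ≤ ∑ k ∈ range (n + 1), r ^ (n - k) := by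
          apply Finset.sum_le_sum_of_subset_of_nonneg
          · intro k hk
            rw [mem_filter] at hk
            rw [mem_range]; omega
          · intro i _ _; positivity
      _ = ∑ k ∈ range (n + 1), r ^ (n + 1 - 1 - k) := by
          refine Finset.sum_congr rfl fun k hk => ?_
          rw [show n + 1 - 1 - k = n - k by omega]
      _ = ∑ j ∈ range (n + 1), r ^ j := Finset.sum_range_reflect (fun j => r ^ j) (n + 1)
      _ ≤ 5 := geom_le _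
  have s2 : ∑ k ∈ Ico 1 (2 ^ m), (if n ≤ k then r ^ (k - n) else 0) ≤ 5 := by
    rw [← Finset.sum_filter]
    calc ∑ k ∈ (Ico 1 (2 ^ m)).filter (fun k => n ≤ k), r ^ (k - n)
        ≤ ∑ k ∈ Ico n (2 ^ m), r ^ (k - n) := by
          apply Finset.sum_le_sum_of_subset_of_nonneg
          · intro k hk
            rw [mem_filter, mem_Ico] at hk
            rw [mem_Ico]; omega
          · intro i _ _; positivity
      _ = ∑ j ∈ range (2 ^ m - n), r ^ j := by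
          rw [Finset.sum_Ico_eq_sum_range]
          refine Finset.sum_congr rfl fun k hk => ?_
          rw [show n + k - n = k by omega]
      _ ≤ 5 := geom_le _
  linarith

lemma sum_sq_le {σ : ℝ} (h1 : 1 / 2 ≤ σ) (m : ℕ) : ∑ n ∈ Ico 1 (2 ^ m), aw σ n ^ 2 ≤ m := by
  induction m with
  | zero => simp
  | succ m ih =>
    have hc : 1 ≤ 2 ^ m := Nat.one_le_two_pow
    have hc2 : 2 ^ m ≤ 2 ^ (m + 1) := Nat.pow_le_pow_right (by norm_num) (by omega)
    rw [← Finset.sum_Ico_consecutive _ hc hc2]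
    have hM : (0:ℝ) < 2 ^ m := by positivity
    have hb : ∀ n ∈ Ico (2 ^ m) (2 ^ (m + 1)), aw σ n ^ 2 ≤ 1 / 2 ^ m := by
      intro n hn
      rw [mem_Ico] at hn
      have hn1 : (2:ℝ) ^ m ≤ n := by exact_mod_cast hn.1
      have hn0 : (0:ℝ) < n := by linarith
      have hn2 : (1:ℝ) ≤ n := by exact_mod_cast hc.trans hn.1
      have e : aw σ n ^ 2 = (n:ℝ) ^ (-(2 * σ)) := by
        rw [aw, ← Real.rpow_natCast, ← Real.rpow_mul hn0.le]
        congr 1; push_cast; ring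
      rw [e]
      calc (n:ℝ) ^ (-(2 * σ)) ≤ (n:ℝ) ^ (-1 : ℝ) :=
            Real.rpow_le_rpow_of_exponent_le hn2 (by linarith)
        _ = 1 / n := by rw [Real.rpow_neg_one, one_div]
        _ ≤ 1 / 2 ^ m := one_div_le_one_div_of_le hM hn1
    have hs := Finset.sum_le_card_nsmul _ _ _ hb
    rw [Nat.card_Ico, nsmul_eq_mul] at hs
    have e2 : ((2 ^ (m + 1) - 2 ^ m : ℕ) : ℝ) * (1 / 2 ^ m) = 1 := by
      rw [show 2 ^ (m + 1) - 2 ^ m = 2 ^ m by rw [pow_succ]; omega]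
      push_cast
      field_simp
    rw [e2] at hs
    push_cast
    linarith

lemma PP_int (σ : ℝ) (m : ℕ) : Integrable fun t : ℝ => ‖PP σ m t‖ ^ 2 * gm m t := by
  have h : Integrable fun t : ℝ => (((‖PP σ m t‖ ^ 2 * gm m t : ℝ)) : ℂ) := by
    have e : (fun t : ℝ => (((‖PP σ m t‖ ^ 2 * gm m t : ℝ)) : ℂ)) = fun t : ℝ =>
        ∑ n ∈ Ico 1 (2 ^ m), ∑ k ∈ Ico 1 (2 ^ m), ((aw σ n * aw σ k : ℝ) : ℂ) *
          (ei (ph t n) * (starRingEnd ℂ) (ei (ph t k)) * ((gm m t : ℝ) : ℂ)) := by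
      funext t
      rw [Complex.ofReal_mul, Complex.ofReal_pow, ← Complex.mul_conj', PP, map_sum,
        Finset.sum_mul_sum, Finset.sum_mul]
      refine Finset.sum_congr rfl fun n _ => ?_
      rw [Finset.sum_mul]
      refine Finset.sum_congr rfl fun k _ => ?_
      rw [map_mul, conj_ofReal]
      push_cast
      ring
    rw [e]
    exact integrable_finsetSum _ fun n _ => integrable_finsetSum _ fun k _ =>
      (pair_int m n k).const_mul _
  exact h.re.congr (ae_of_all _ fun t => Complex.ofReal_re _)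

lemma PP_mean {σ : ℝ} (h1 : 1 / 2 ≤ σ) (m : ℕ) :
    ∫ t : ℝ, ‖PP σ m t‖ ^ 2 * gm m t ≤ 20 * 2 ^ m * m := by
  have e : ∀ t : ℝ, (((‖PP σ m t‖ ^ 2 * gm m t : ℝ)) : ℂ) =
        ∑ n ∈ Ico 1 (2 ^ m), ∑ k ∈ Ico 1 (2 ^ m), ((aw σ n * aw σ k : ℝ) : ℂ) *
          (ei (ph t n) * (starRingEnd ℂ) (ei (ph t k)) * ((gm m t : ℝ) : ℂ)) := by
    intro t
    rw [Complex.ofReal_mul, Complex.ofReal_pow, ← Complex.mul_conj', PP, map_sum,
      Finset.sum_mul_sum, Finset.sum_mul]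
    refine Finset.sum_congr rfl fun n _ => ?_
    rw [Finset.sum_mul]
    refine Finset.sum_congr rfl fun k _ => ?_
    rw [map_mul, conj_ofReal]
    push_cast
    ring
  have hI : ((∫ t : ℝ, ‖PP σ m t‖ ^ 2 * gm m t : ℝ) : ℂ) =
      ∑ n ∈ Ico 1 (2 ^ m), ∑ k ∈ Ico 1 (2 ^ m), ((aw σ n * aw σ k : ℝ) : ℂ) *
        ∫ t : ℝ, ei (ph t n) * (starRingEnd ℂ) (ei (ph t k)) * ((gm m t : ℝ) : ℂ) := by
    rw [← integral_complex_ofReal]
    simp_rw [e]
    rw [integral_finsetSum _ (fun n _ => integrable_finsetSum _ fun k _ =>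
      (pair_int m n k).const_mul _)]
    refine Finset.sum_congr rfl fun n _ => ?_
    rw [integral_finsetSum _ (fun k _ => (pair_int m n k).const_mul _)]
    refine Finset.sum_congr rfl fun k _ => ?_
    rw [integral_const_mul]
  have hpos : 0 ≤ ∫ t : ℝ, ‖PP σ m t‖ ^ 2 * gm m t :=
    integral_nonneg fun t => mul_nonneg (by positivity) (Real.exp_pos _).le
  have hn : ∫ t : ℝ, ‖PP σ m t‖ ^ 2 * gm m t ≤
      ∑ n ∈ Ico 1 (2 ^ m), ∑ k ∈ Ico 1 (2 ^ m), (aw σ n * aw σ k) * (2 * 2 ^ m * rr n k) := by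
    rw [← Real.norm_of_nonneg hpos, ← Complex.norm_real, hI]
    refine (norm_sum_le _ _).trans (Finset.sum_le_sum fun n hn => ?_)
    refine (norm_sum_le _ _).trans (Finset.sum_le_sum fun k hk => ?_)
    rw [norm_mul, Complex.norm_real, Real.norm_of_nonneg (mul_nonneg (aw_nonneg _ _) (aw_nonneg _ _))]
    apply mul_le_mul_of_nonneg_left _ (mul_nonneg (aw_nonneg _ _) (aw_nonneg _ _))
    refine (pair_integral m n k).trans ?_
    exact mul_le_mul_of_nonneg_left (exp_le_rr hn hk) (by positivity)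
  refine hn.trans ?_
  have hc : ∀ n k : ℕ, (aw σ n * aw σ k) * (2 * 2 ^ m * rr n k) ≤
      2 ^ m * (aw σ n ^ 2 * rr n k) + 2 ^ m * (aw σ k ^ 2 * rr k n) := by
    intro n k
    rw [rr_symm k n]
    have h0 : 0 ≤ (2:ℝ) ^ m * rr n k := mul_nonneg (by positivity) (Real.exp_pos _).le
    have h2 : 0 ≤ (2:ℝ) ^ m * rr n k * (aw σ n - aw σ k) ^ 2 := mul_nonneg h0 (sq_nonneg _)
    linarith [h2, show (2:ℝ) ^ m * rr n k * (aw σ n - aw σ k) ^ 2 =
      2 ^ m * (aw σ n ^ 2 * rr n k) + 2 ^ m * (aw σ k ^ 2 * rr n k) -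
      (aw σ n * aw σ k) * (2 * 2 ^ m * rr n k) by ring]
  have hd : ∑ n ∈ Ico 1 (2 ^ m), ∑ k ∈ Ico 1 (2 ^ m), (2:ℝ) ^ m * (aw σ n ^ 2 * rr n k) ≤
      10 * 2 ^ m * m := by
    calc ∑ n ∈ Ico 1 (2 ^ m), ∑ k ∈ Ico 1 (2 ^ m), (2:ℝ) ^ m * (aw σ n ^ 2 * rr n k)
        = ∑ n ∈ Ico 1 (2 ^ m), 2 ^ m * (aw σ n ^ 2 * ∑ k ∈ Ico 1 (2 ^ m), rr n k) := by
          refine Finset.sum_congr rfl fun n _ => ?_
          rw [Finset.mul_sum, Finset.mul_sum]
      _ ≤ ∑ n ∈ Ico 1 (2 ^ m), 2 ^ m * (aw σ n ^ 2 * 10) := by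
          refine Finset.sum_le_sum fun n _ => ?_
          apply mul_le_mul_of_nonneg_left _ (by positivity)
          exact mul_le_mul_of_nonneg_left (sum_rr_le m n) (by positivity)
      _ = 10 * 2 ^ m * ∑ n ∈ Ico 1 (2 ^ m), aw σ n ^ 2 := by
          rw [Finset.mul_sum]
          refine Finset.sum_congr rfl fun n _ => ?_
          ring
      _ ≤ 10 * 2 ^ m * m := mul_le_mul_of_nonneg_left (sum_sq_le h1 m) (by positivity)
  calc ∑ n ∈ Ico 1 (2 ^ m), ∑ k ∈ Ico 1 (2 ^ m), (aw σ n * aw σ k) * (2 * 2 ^ m * rr n k)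
      ≤ ∑ n ∈ Ico 1 (2 ^ m), ∑ k ∈ Ico 1 (2 ^ m),
        (2 ^ m * (aw σ n ^ 2 * rr n k) + 2 ^ m * (aw σ k ^ 2 * rr k n)) :=
        Finset.sum_le_sum fun n _ => Finset.sum_le_sum fun k _ => hc n k
    _ = ∑ n ∈ Ico 1 (2 ^ m), ∑ k ∈ Ico 1 (2 ^ m), (2:ℝ) ^ m * (aw σ n ^ 2 * rr n k) +
        ∑ n ∈ Ico 1 (2 ^ m), ∑ k ∈ Ico 1 (2 ^ m), (2:ℝ) ^ m * (aw σ k ^ 2 * rr k n) := by
        rw [← Finset.sum_add_distrib]
        refine Finset.sum_congr rfl fun n _ => ?_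
        rw [← Finset.sum_add_distrib]
    _ ≤ 10 * 2 ^ m * m + 10 * 2 ^ m * m := by
        refine add_le_add hd ?_
        rw [Finset.sum_comm]
        exact hd
    _ = 20 * 2 ^ m * m := by ring

/-! ## dyadic annuli -/

lemma PP_neg (σ : ℝ) (m : ℕ) (t : ℝ) : ‖PP σ m (-t)‖ = ‖PP σ m t‖ := by
  have h : PP σ m (-t) = (starRingEnd ℂ) (PP σ m t) := by
    rw [PP, PP, map_sum]
    refine Finset.sum_congr rfl fun n _ => ?_
    rw [map_mul, conj_ofReal, show (starRingEnd ℂ) (ei (ph t n)) = ei (-(ph t n)) from conj_ei _]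
    congr 2
    simp only [ph]
    ring
  rw [h, Complex.norm_conj]

lemma zeta_neg (σ t : ℝ) :
    ‖riemannZeta ((σ : ℂ) + ((-t : ℝ) : ℂ) * I)‖ = ‖riemannZeta ((σ : ℂ) + t * I)‖ := by
  have h : (σ : ℂ) + ((-t : ℝ) : ℂ) * I = (starRingEnd ℂ) ((σ : ℂ) + t * I) := by
    simp
  rw [h, riemannZeta_conj, Complex.norm_conj]

lemma approx' {σ w : ℝ} (h1 : 1 / 2 ≤ σ) (h2 : σ ≤ 3 / 4) {m : ℕ} (hw1 : (2:ℝ) ^ m ≤ 2 * |w|)
    (hw2 : |w| ≤ 2 ^ m) :
    ‖riemannZeta ((σ : ℂ) + w * I)‖ ≤ ‖PP σ m w‖ + 160 := by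
  rcases le_total 0 w with h | h
  · rw [abs_of_nonneg h] at hw1 hw2
    exact approx h1 h2 hw1 hw2
  · rw [abs_of_nonpos h] at hw1 hw2
    have := approx h1 h2 hw1 hw2
    rw [zeta_neg, PP_neg] at this
    exact this

lemma ptw {σ w : ℝ} (h1 : 1 / 2 ≤ σ) (h2 : σ ≤ 3 / 4) {m : ℕ} (hw1 : (2:ℝ) ^ m ≤ 2 * |w|)
    (hw2 : |w| ≤ 2 ^ m) :
    ‖riemannZeta ((σ : ℂ) + w * I)‖ ^ 2 ≤ 6 * (‖PP σ m w‖ ^ 2 * gm m w) + 51200 := by
  have h := approx' h1 h2 hw1 hw2
  have h3 : ‖riemannZeta ((σ : ℂ) + w * I)‖ ^ 2 ≤ (‖PP σ m w‖ + 160) ^ 2 :=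
    pow_le_pow_left₀ (norm_nonneg _) h 2
  have h4 : (1:ℝ) / 3 ≤ gm m w := by
    have hM : (0:ℝ) < 2 ^ m := by positivity
    have h5 : (w / 2 ^ m) ^ 2 ≤ 1 := by
      rw [← sq_abs, abs_div, abs_of_pos hM]
      have : |w| / 2 ^ m ≤ 1 := by rw [div_le_one hM]; exact hw2
      exact pow_le_one₀ (by positivity) this
    have h6 : Real.exp (-1) ≤ gm m w := by
      unfold gm
      exact Real.exp_le_exp.mpr (by linarith)
    have h7 : (1:ℝ) / 3 ≤ Real.exp (-1) := by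
      rw [Real.exp_neg, one_div]
      exact inv_anti₀ (Real.exp_pos _) Real.exp_one_lt_three.le
    linarith
  have h5 : 0 ≤ (‖PP σ m w‖ - 160) ^ 2 := sq_nonneg _
  have h6 : ‖PP σ m w‖ ^ 2 * (1 / 3) ≤ ‖PP σ m w‖ ^ 2 * gm m w :=
    mul_le_mul_of_nonneg_left h4 (by positivity)
  nlinarith

/-- the annulus `2 ^ m / 2 ≤ |w| ≤ 2 ^ m`. -/
def An (m : ℕ) : Set ℝ := {w : ℝ | (2:ℝ) ^ m ≤ 2 * |w| ∧ |w| ≤ 2 ^ m}

lemma An_meas (m : ℕ) : MeasurableSet (An m) := by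
  have i1 : MeasurableSet {w : ℝ | (2:ℝ) ^ m ≤ 2 * |w|} :=
    measurableSet_le measurable_const (by fun_prop)
  have i2 : MeasurableSet {w : ℝ | |w| ≤ (2:ℝ) ^ m} := measurableSet_le (by fun_prop)
    measurable_const
  exact i1.inter i2

lemma annulus {σ κ : ℝ} (h1 : 1 / 2 ≤ σ) (h2 : σ ≤ 3 / 4) (hκ : 0 < κ) (m : ℕ) :
    ∫⁻ w in An m, ENNReal.ofReal (‖riemannZeta ((σ : ℂ) + w * I)‖ ^ 2 * Real.exp (-(κ * |w|))) ≤
      ENNReal.ofReal (102400 * (2 ^ m * (m + 1) * Real.exp (-(κ / 2 * 2 ^ m)))) := by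
  set E := Real.exp (-(κ / 2 * 2 ^ m)) with hE
  have hE0 : 0 < E := Real.exp_pos _
  have hM : (0:ℝ) < 2 ^ m := by positivity
  have hb : ∀ w ∈ An m, ENNReal.ofReal (‖riemannZeta ((σ : ℂ) + w * I)‖ ^ 2 *
      Real.exp (-(κ * |w|))) ≤ ENNReal.ofReal (6 * E * (‖PP σ m w‖ ^ 2 * gm m w)) +
        ENNReal.ofReal (51200 * E) := by
    intro w hw
    rw [← ENNReal.ofReal_add (by unfold gm; positivity) (by positivity)]
    apply ENNReal.ofReal_le_ofReal
    have i1 : Real.exp (-(κ * |w|)) ≤ E := by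
      apply Real.exp_le_exp.mpr
      have := mul_le_mul_of_nonneg_left hw.1 hκ.le
      linarith
    calc ‖riemannZeta ((σ : ℂ) + w * I)‖ ^ 2 * Real.exp (-(κ * |w|))
        ≤ (6 * (‖PP σ m w‖ ^ 2 * gm m w) + 51200) * E :=
          mul_le_mul (ptw h1 h2 hw.1 hw.2) i1 (Real.exp_pos _).le (by unfold gm; positivity)
      _ = _ := by ring
  refine (setLIntegral_mono' (An_meas m) hb).trans ?_
  rw [lintegral_add_right _ measurable_const]
  have j1 : ∫⁻ w in An m, ENNReal.ofReal (6 * E * (‖PP σ m w‖ ^ 2 * gm m w)) ≤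
      ENNReal.ofReal (6 * E * (20 * 2 ^ m * m)) := by
    refine (setLIntegral_le_lintegral _ _).trans ?_
    rw [← ofReal_integral_eq_lintegral_ofReal ((PP_int σ m).const_mul _)
      (ae_of_all _ fun t => by unfold gm; positivity)]
    apply ENNReal.ofReal_le_ofReal
    rw [integral_const_mul]
    exact mul_le_mul_of_nonneg_left (PP_mean h1 m) (by positivity)
  have j2 : ∫⁻ _ in An m, ENNReal.ofReal (51200 * E) ≤ ENNReal.ofReal (51200 * E * (2 * 2 ^ m)) := by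
    rw [setLIntegral_const, ENNReal.ofReal_mul (by positivity : 0 ≤ 51200 * E)]
    apply mul_le_mul_right
    have hsub : An m ⊆ Set.Icc (-(2 ^ m)) (2 ^ m) := fun w hw => abs_le.mp hw.2
    refine (measure_mono hsub).trans ?_
    rw [Real.volume_Icc]
    apply ENNReal.ofReal_le_ofReal
    linarith
  refine (add_le_add j1 j2).trans ?_
  rw [← ENNReal.ofReal_add (by positivity) (by positivity)]
  apply ENNReal.ofReal_le_ofReal
  have hm0 : (0:ℝ) ≤ m := Nat.cast_nonneg m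
  have k0 : 0 ≤ E * 2 ^ m := by positivity
  have k1 : 0 ≤ E * 2 ^ m * m := by positivity
  calc 6 * E * (20 * 2 ^ m * m) + 51200 * E * (2 * 2 ^ m)
      = 120 * (E * 2 ^ m * m) + 102400 * (E * 2 ^ m) := by ring
    _ ≤ 102400 * (E * 2 ^ m * m) + 102400 * (E * 2 ^ m) := by linarith
    _ = _ := by ring

/-! ## the dyadic sum -/

lemma exp_cube {y : ℝ} (hy : 0 < y) : Real.exp (-y) ≤ 6 / y ^ 3 := by
  rw [Real.exp_neg, ← one_div, div_le_div_iff₀ (Real.exp_pos _) (by positivity)]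
  have := Real.sum_le_exp_of_nonneg hy.le 4
  simp [Finset.sum_range_succ, Nat.factorial] at this
  nlinarith [sq_nonneg y]

lemma exists_J {x : ℝ} (hx : 0 < x) (hx1 : x ≤ 1 / 2) :
    ∃ J : ℕ, 1 ≤ J ∧ 1 ≤ x * 2 ^ J ∧ x * 2 ^ J ≤ 2 := by
  classical
  have hex : ∃ J : ℕ, 1 ≤ x * 2 ^ J := by
    obtain ⟨J, hJ⟩ := pow_unbounded_of_one_lt (1 / x) (by norm_num : (1:ℝ) < 2)
    refine ⟨J, ?_⟩
    rw [div_lt_iff₀ hx] at hJ
    linarith
  refine ⟨Nat.find hex, ?_, Nat.find_spec hex, ?_⟩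
  · rw [Nat.one_le_iff_ne_zero]
    intro h
    have := Nat.find_spec hex
    rw [h, pow_zero, mul_one] at this
    linarith
  · have hne : Nat.find hex ≠ 0 := by
      intro h
      have := Nat.find_spec hex
      rw [h, pow_zero, mul_one] at this
      linarith
    have h1 := Nat.find_min hex (m := Nat.find hex - 1) (by omega)
    push Not at h1
    have e : (2:ℝ) ^ (Nat.find hex) = 2 * 2 ^ (Nat.find hex - 1) := by
      rw [← pow_succ']; congr 1; omega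
    rw [e]
    linarith

lemma dy {x : ℝ} (hx : 0 < x) {J : ℕ} (hJ1 : 1 ≤ x * 2 ^ J) :
    Summable (fun m : ℕ => (2:ℝ) ^ m * (m + 1) * Real.exp (-(x * 2 ^ m))) ∧
    ∑' m : ℕ, (2:ℝ) ^ m * (m + 1) * Real.exp (-(x * 2 ^ m)) ≤ 13 * 2 ^ J * (J + 1) := by
  set f : ℕ → ℝ := fun m => (2:ℝ) ^ m * (m + 1) * Real.exp (-(x * 2 ^ m)) with hf
  have hf0 : ∀ m, 0 ≤ f m := fun m => by rw [hf]; positivity
  have htail : ∀ i, f (i + J) ≤ 6 * 2 ^ J * (J + 1) * (1 / 2) ^ i := by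
    intro i
    have e1 : (2:ℝ) ^ (i + J) = 2 ^ i * 2 ^ J := pow_add _ _ _
    have hi : ((i:ℝ) + 1) ≤ 2 ^ i := by
      have := one_add_mul_le_pow (a := (1:ℝ)) (by norm_num) i
      norm_num at this
      linarith
    have hexp : Real.exp (-(x * 2 ^ (i + J))) ≤ 6 / (2 ^ i) ^ 3 := by
      refine le_trans (Real.exp_le_exp.mpr ?_) (exp_cube (y := 2 ^ i) (by positivity))
      have : (2:ℝ) ^ i * 1 ≤ 2 ^ i * (x * 2 ^ J) := mul_le_mul_of_nonneg_left hJ1 (by positivity)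
      rw [e1]
      linarith
    have hm : (((i + J : ℕ) : ℝ) + 1) ≤ 2 ^ i * (J + 1) := by
      push_cast
      have h1 : (0:ℝ) ≤ J := Nat.cast_nonneg J
      have h2 : (1:ℝ) ≤ 2 ^ i := one_le_pow₀ (by norm_num)
      nlinarith
    have hpos : (0:ℝ) < 2 ^ i := by positivity
    calc f (i + J) = 2 ^ (i + J) * (((i + J : ℕ) : ℝ) + 1) * Real.exp (-(x * 2 ^ (i + J))) := rfl
      _ ≤ (2 ^ i * 2 ^ J) * (2 ^ i * (J + 1)) * (6 / (2 ^ i) ^ 3) := by
          rw [e1] at hexp ⊢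
          gcongr
      _ = 6 * 2 ^ J * (J + 1) * (1 / 2) ^ i := by
          rw [one_div, inv_pow]
          field_simp
  have hgs : Summable fun i : ℕ => 6 * 2 ^ J * ((J:ℝ) + 1) * (1 / 2) ^ i :=
    (summable_geometric_of_lt_one (by norm_num) (by norm_num)).mul_left _
  have hsJ : Summable fun i => f (i + J) := hgs.of_nonneg_of_le (fun i => hf0 _) htail
  have hs : Summable f := (summable_nat_add_iff J).1 hsJ
  refine ⟨hs, ?_⟩
  rw [← hs.sum_add_tsum_nat_add J]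
  have t1 : ∑' i, f (i + J) ≤ 12 * 2 ^ J * (J + 1) := by
    refine (hsJ.tsum_le_tsum htail hgs).trans ?_
    rw [tsum_mul_left, tsum_geometric_of_lt_one (by norm_num) (by norm_num)]
    apply le_of_eq
    ring
  have t2 : ∑ m ∈ range J, f m ≤ 2 ^ J * (J + 1) := by
    have : ∀ m ∈ range J, f m ≤ 2 ^ m * ((J:ℝ) + 1) := by
      intro m hm
      rw [mem_range] at hm
      have h1 : (m:ℝ) ≤ J := by exact_mod_cast hm.le
      have h2 : Real.exp (-(x * 2 ^ m)) ≤ 1 := Real.exp_le_one_iff.mpr (by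
        have : 0 ≤ x * 2 ^ m := by positivity
        linarith)
      calc f m = 2 ^ m * (m + 1) * Real.exp (-(x * 2 ^ m)) := rfl
        _ ≤ 2 ^ m * (J + 1) * 1 := by gcongr
        _ = _ := by ring
    refine (Finset.sum_le_sum this).trans ?_
    rw [← Finset.sum_mul]
    apply mul_le_mul_of_nonneg_right _ (by positivity)
    rw [geom_sum_eq (by norm_num)]
    norm_num
  have h0 : (0:ℝ) ≤ 2 ^ J * (J + 1) := by positivity
  linarith

theorem zms : ZMSStatement := by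
  -- small `w`
  obtain ⟨B, hB⟩ : ∃ B : ℝ, ∀ p ∈ (Set.Icc (1 / 2 : ℝ) (3 / 4)) ×ˢ (Set.Icc (-1 : ℝ) 1),
      ‖riemannZeta ((p.1 : ℂ) + p.2 * I)‖ ≤ B := by
    apply (isCompact_Icc.prod isCompact_Icc).exists_bound_of_continuousOn
    intro p hp
    have hne : ((p.1 : ℂ) + p.2 * I) ≠ 1 := by
      intro h
      have := congrArg Complex.re h
      simp at this
      have := hp.1.2
      linarith
    have hc : ContinuousAt riemannZeta ((p.1 : ℂ) + p.2 * I) :=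
      (differentiableAt_riemannZeta hne).continuousAt
    exact (hc.comp (f := fun p : ℝ × ℝ => ((p.1 : ℂ) + p.2 * I)) (by fun_prop)).continuousWithinAt
  set K : ℝ := 2 * B ^ 2 + 102400 * 13 * 4 * 4 with hK
  have hK0 : 0 < K := by positivity
  refine ⟨K, hK0, fun σ κ h1 h2 hκ hκ1 => ?_⟩
  have hL : 1 ≤ Real.log (3 / κ) := by
    have h3 : Real.exp 1 ≤ 3 / κ := by
      rw [le_div_iff₀ hκ]
      nlinarith [Real.exp_one_lt_three, Real.exp_pos 1]
    have := Real.log_le_log (Real.exp_pos 1) h3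
    rwa [Real.log_exp] at this
  have hcont : Continuous fun w : ℝ => ‖riemannZeta ((σ : ℂ) + w * I)‖ ^ 2 *
      Real.exp (-(κ * |w|)) := by
    refine Continuous.mul ?_ (by fun_prop)
    refine Continuous.pow ?_ 2
    refine Continuous.norm ?_
    rw [continuous_iff_continuousAt]
    intro w
    have hne : ((σ : ℂ) + w * I) ≠ 1 := by
      intro h
      have := congrArg Complex.re h
      simp at this
      linarith
    have hc : ContinuousAt riemannZeta ((σ : ℂ) + w * I) :=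
      (differentiableAt_riemannZeta hne).continuousAt
    exact hc.comp (f := fun w : ℝ => ((σ : ℂ) + w * I)) (by fun_prop)
  have hnn : ∀ w : ℝ, 0 ≤ ‖riemannZeta ((σ : ℂ) + w * I)‖ ^ 2 * Real.exp (-(κ * |w|)) :=
    fun w => by positivity
  -- the bound
  have hbound : ∫⁻ w : ℝ, ENNReal.ofReal (‖riemannZeta ((σ : ℂ) + w * I)‖ ^ 2 *
      Real.exp (-(κ * |w|))) ≤ ENNReal.ofReal (K * Real.log (3 / κ) / κ) := by
    have hcov : (Set.univ : Set ℝ) ⊆ Set.Icc (-1) 1 ∪ ⋃ m, An m := by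
      intro w _
      rcases le_or_gt |w| 1 with h | h
      · left; exact abs_le.mp h
      · right
        rw [Set.mem_iUnion]
        classical
        have hex : ∃ m : ℕ, |w| ≤ 2 ^ m := by
          obtain ⟨m, hm⟩ := pow_unbounded_of_one_lt |w| (by norm_num : (1:ℝ) < 2)
          exact ⟨m, hm.le⟩
        refine ⟨Nat.find hex, ?_, Nat.find_spec hex⟩
        have hne : Nat.find hex ≠ 0 := by
          intro h0
          have := Nat.find_spec hex
          rw [h0, pow_zero] at this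
          linarith
        have h3 := Nat.find_min hex (m := Nat.find hex - 1) (by omega)
        push Not at h3
        have e : (2:ℝ) ^ (Nat.find hex) = 2 * 2 ^ (Nat.find hex - 1) := by
          rw [← pow_succ']; congr 1; omega
        rw [e]
        linarith
    obtain ⟨J, hJ0, hJ1, hJ2⟩ := exists_J (x := κ / 2) (by linarith) (by linarith)
    obtain ⟨hs, hsum⟩ := dy (x := κ / 2) (by linarith) hJ1
    rw [← setLIntegral_univ]
    refine (lintegral_mono_set hcov).trans ?_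
    refine (lintegral_union_le _ _ _).trans ?_
    have a1 : ∫⁻ w in Set.Icc (-1 : ℝ) 1, ENNReal.ofReal (‖riemannZeta ((σ : ℂ) + w * I)‖ ^ 2 *
        Real.exp (-(κ * |w|))) ≤ ENNReal.ofReal (2 * B ^ 2) := by
      calc ∫⁻ w in Set.Icc (-1 : ℝ) 1, ENNReal.ofReal (‖riemannZeta ((σ : ℂ) + w * I)‖ ^ 2 *
            Real.exp (-(κ * |w|))) ≤ ∫⁻ _ in Set.Icc (-1 : ℝ) 1, ENNReal.ofReal (B ^ 2) := by
            refine setLIntegral_mono' measurableSet_Icc fun w hw => ?_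
            apply ENNReal.ofReal_le_ofReal
            have b1 : ‖riemannZeta ((σ : ℂ) + w * I)‖ ≤ B := hB (σ, w) ⟨⟨h1, h2⟩, hw⟩
            have b2 : Real.exp (-(κ * |w|)) ≤ 1 := Real.exp_le_one_iff.mpr (by
              have : 0 ≤ κ * |w| := by positivity
              linarith)
            calc ‖riemannZeta ((σ : ℂ) + w * I)‖ ^ 2 * Real.exp (-(κ * |w|))
                ≤ B ^ 2 * 1 := by gcongr
              _ = B ^ 2 := mul_one _
        _ = ENNReal.ofReal (2 * B ^ 2) := by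
            rw [setLIntegral_const, Real.volume_Icc, ← ENNReal.ofReal_mul (by positivity)]
            congr 1
            ring
    have a2 : ∫⁻ w in ⋃ m, An m, ENNReal.ofReal (‖riemannZeta ((σ : ℂ) + w * I)‖ ^ 2 *
        Real.exp (-(κ * |w|))) ≤ ENNReal.ofReal (102400 * (13 * 2 ^ J * (J + 1))) := by
      refine (lintegral_iUnion_le _ _).trans ?_
      refine (ENNReal.tsum_le_tsum fun m => annulus h1 h2 hκ m).trans ?_
      rw [← ENNReal.ofReal_tsum_of_nonneg (fun m => by positivity) (hs.mul_left _)]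
      apply ENNReal.ofReal_le_ofReal
      rw [tsum_mul_left]
      exact mul_le_mul_of_nonneg_left hsum (by norm_num)
    refine (add_le_add a1 a2).trans ?_
    rw [← ENNReal.ofReal_add (by positivity) (by positivity)]
    apply ENNReal.ofReal_le_ofReal
    -- numerical
    have c1 : (2:ℝ) ^ J ≤ 4 / κ := by
      rw [le_div_iff₀ hκ]; linarith
    have c2 : (J:ℝ) + 1 ≤ 4 * Real.log (3 / κ) := by
      have d1 := Real.log_le_log (by positivity) c1
      rw [Real.log_pow] at d1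
      have d2 : Real.log (4 / κ) = Real.log (4 / 3) + Real.log (3 / κ) := by
        rw [← Real.log_mul (by norm_num) (by positivity)]
        congr 1
        field_simp
      have d3 : Real.log (4 / 3 : ℝ) ≤ 1 / 3 := by
        have := Real.log_le_sub_one_of_pos (x := (4 / 3 : ℝ)) (by norm_num)
        linarith
      have d4 : (0.693 : ℝ) < Real.log 2 := by
        have := Real.log_two_gt_d9; linarith
      have d5 : (J:ℝ) * 0.693 ≤ J * Real.log 2 :=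
        mul_le_mul_of_nonneg_left d4.le (Nat.cast_nonneg J)
      linarith
    have c3 : (2:ℝ) ^ J * (J + 1) ≤ 4 * 4 * (Real.log (3 / κ) / κ) := by
      calc (2:ℝ) ^ J * (J + 1) ≤ (4 / κ) * (4 * Real.log (3 / κ)) := by gcongr
        _ = _ := by ring
    have c4 : 1 ≤ Real.log (3 / κ) / κ := by
      rw [le_div_iff₀ hκ]; linarith
    have c5 : 2 * B ^ 2 * 1 ≤ 2 * B ^ 2 * (Real.log (3 / κ) / κ) :=
      mul_le_mul_of_nonneg_left c4 (by positivity)
    calc 2 * B ^ 2 + 102400 * (13 * 2 ^ J * ((J:ℝ) + 1))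
        = 2 * B ^ 2 * 1 + 102400 * 13 * (2 ^ J * ((J:ℝ) + 1)) := by ring
      _ ≤ 2 * B ^ 2 * (Real.log (3 / κ) / κ) + 102400 * 13 * (4 * 4 * (Real.log (3 / κ) / κ)) := by
          linarith
      _ = K * Real.log (3 / κ) / κ := by rw [hK]; ring
  have hint : Integrable fun w : ℝ => ‖riemannZeta ((σ : ℂ) + w * I)‖ ^ 2 *
      Real.exp (-(κ * |w|)) := by
    refine ⟨hcont.aestronglyMeasurable, ?_⟩
    rw [hasFiniteIntegral_iff_ofReal (ae_of_all _ hnn)]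
    exact lt_of_le_of_lt hbound ENNReal.ofReal_lt_top
  refine ⟨hint, ?_⟩
  have h3 := ofReal_integral_eq_lintegral_ofReal hint (ae_of_all _ hnn)
  rw [← h3] at hbound
  exact (ENNReal.ofReal_le_ofReal_iff (by positivity)).1 hbound

end Pool.Agent.Lib.MP_6bc78b_nt.GP.H64
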